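import Pool.Agent.H421Z.TExt.Extral

set_option autoImplicit false

namespace Pool.Agent.Results.MP_9c9ca5_gt.Metrizable

open Pool.Agent.H421Z.TExt

universe u

/-- Every t-extral Tychonoff space of countable tightness is metrizable. -/
theorem result (X : Type u) [TopologicalSpace X] [T35Space X] (h : TExtral X)
    (ht : CountablyTight X) : TopologicalSpace.MetrizableSpace X :=
  metrizable_of_tight h ht

end Pool.Agent.Results.MP_9c9ca5_gt.Metrizable
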